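import Pool.Agent.H34.GU.Fin
import Pool.Agent.H16.GA.TargetsF
import Pool.Agent.H11.GA.ACA
import Pool.Agent.H12.GA.NZU
import Pool.Agent.H13.GA.OSA
import Pool.Agent.H16.GA.MOC
import Pool.Agent.H16.GA.SPC
import Pool.Agent.H17.GA.ABA
import Pool.Agent.H17.GA.GLA
import Pool.Agent.H19.GA.FTA
import Pool.Agent.H19.GA.POA
import Pool.Agent.H20.GA.UBD
import Pool.Agent.H23.GA.PHB
import Pool.Agent.H23.GA.SGA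
import Pool.Agent.H23.GA.ZLO
import Pool.Agent.H27.GA.THG
import Pool.Agent.H31.GA.PA2
import Pool.Agent.H32.GA.D4B
import Pool.Agent.H35.GA.LMA
import Pool.Agent.H5.GA.HSA
import Pool.Agent.H50.GA.NZR
import Pool.Agent.H51.GA.POV
import Pool.Agent.H52.GA.DCA
import Pool.Agent.H52.GA.MSA
import Pool.Agent.H54.GA.EGA
import Pool.Agent.H55.GA.ADR
import Pool.Agent.H55.GA.EIA
import Pool.Agent.H55.GA.EZA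
import Pool.Agent.H55.GA.OCA
import Pool.Agent.H60.GA.MKI
import Pool.Agent.H63.GA.PA1
import Pool.Agent.H69.GA.ABW
import Pool.Agent.H69.GA.CFA
import Pool.Agent.H69.GA.ENA
import Pool.Agent.H69.GA.FEA
import Pool.Agent.H69.GA.MLZ
import Pool.Agent.H69.GA.SMA
import Pool.Agent.H69.GA.SPB
import Pool.Agent.H69.GA.THK
import Pool.Agent.H74.GA.APR
import Pool.Agent.H74.GA.RRA
import Pool.Agent.H74.GA.RRC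
import Pool.Agent.H79.GA.CKI
import Pool.Agent.H80.GA.ADB
import Pool.Agent.H83.GA.CFB
import Pool.Agent.H83.GA.D4A
import Pool.Agent.H84.GA.BIA
import Pool.Agent.H84.GA.BID
import Pool.Agent.H84.GA.FD2
import Pool.Agent.H84.GA.FTB
import Pool.Agent.H84.GA.FTY
import Pool.Agent.H84.GA.TEU
import Pool.Agent.H84.GA.UDE
import Pool.Agent.H86.GA.CUA
import Pool.Agent.H86.GA.LPI
import Pool.Agent.H86.GA.TBA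
import Pool.Agent.H90.GA.CCO
import Pool.Agent.H90.GA.CNR
import Pool.Agent.H91.GA.RRN
import Pool.Agent.H94.GA.EGB

/-!
All rows of the board ga: the fourth moment over the forms of level N with an arbitrary component
at infinity (MP_52e316_nt).
-/

namespace Pool.Agent.H34.GA

theorem c_BIA : Pool.Agent.H34.GA.T_BIA := Pool.Agent.H84.GA.pf_BIA
theorem c_TBA : Pool.Agent.H34.GA.T_TBA := Pool.Agent.H86.GA.pf_TBA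
theorem c_NZR : Pool.Agent.H34.GA.T_NZR := Pool.Agent.H50.GA.pf_NZR c_BIA c_TBA Pool.Agent.H34.GZ.g_MSR
theorem c_RRA : Pool.Agent.H34.GA.T_RRA := Pool.Agent.H74.GA.pf_RRA Pool.Agent.H34.GZ.g_MSR Pool.Agent.H34.GZ.g_HAR
theorem c_RRC : Pool.Agent.H34.GA.T_RRC := Pool.Agent.H74.GA.pf_RRC Pool.Agent.H34.GZ.g_MSR Pool.Agent.H34.GZ.g_HAR c_RRA
theorem c_LPI : Pool.Agent.H34.GA.T_LPI := Pool.Agent.H86.GA.pf_LPI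
theorem c_OSA : Pool.Agent.H34.GA.T_OSA := Pool.Agent.H13.GA.pf_OSA c_BIA c_LPI Pool.Agent.H34.GZ.a_CUB Pool.Agent.H34.GZ.g_HAC Pool.Agent.H34.GZ.g_HAR
theorem c_DCA : Pool.Agent.H34.GA.T_DCA := Pool.Agent.H52.GA.pf_DCA Pool.Agent.H34.GZ.g_HAR Pool.Agent.H34.GZ.g_MSR c_BIA c_OSA c_RRA
theorem c_NZU : Pool.Agent.H34.GA.T_NZU := Pool.Agent.H12.GA.pf_NZU Pool.Agent.H34.GZ.a_UNZ Pool.Agent.H34.GU.b_ALU Pool.Agent.H34.GZ.g_MSR Pool.Agent.H34.GZ.a_VLM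
theorem c_CCO : Pool.Agent.H34.GA.T_CCO := Pool.Agent.H90.GA.pf_CCO Pool.Agent.H34.GZ.a_VLM
theorem c_CFA : Pool.Agent.H34.GA.T_CFA := Pool.Agent.H69.GA.pf_CFA Pool.Agent.H34.GZ.a_VLM Pool.Agent.H34.GZ.a_RTI Pool.Agent.H34.GU.b_ALU Pool.Agent.H34.GZ.g_HAR
theorem c_ZLO : Pool.Agent.H34.GA.T_ZLO := Pool.Agent.H23.GA.pf_ZLO c_BIA
theorem c_MLZ : Pool.Agent.H34.GA.T_MLZ := Pool.Agent.H69.GA.pf_MLZ Pool.Agent.H34.GZ.g_MSR Pool.Agent.H34.GZ.g_HAR Pool.Agent.H34.GZ.g_PLC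
theorem c_CFB : Pool.Agent.H34.GA.T_CFB := Pool.Agent.H83.GA.pf_CFB Pool.Agent.H34.GZ.a_VLM Pool.Agent.H34.GZ.a_RTI Pool.Agent.H34.GU.b_ALU Pool.Agent.H34.GZ.g_HAR Pool.Agent.H34.GU.b_PSU Pool.Agent.H34.GU.b_FR2
theorem c_EZA : Pool.Agent.H34.GA.T_EZA := Pool.Agent.H55.GA.pf_EZA Pool.Agent.H34.GZ.g_MSR Pool.Agent.H34.GZ.g_HAR Pool.Agent.H34.GZ.g_HAC Pool.Agent.H34.GZ.g_PLC
theorem c_EIA : Pool.Agent.H34.GA.T_EIA := Pool.Agent.H55.GA.pf_EIA Pool.Agent.H34.GZ.g_MSR Pool.Agent.H34.GZ.g_HAR Pool.Agent.H34.GZ.a_ALZ Pool.Agent.H34.GU.b_ALU Pool.Agent.H34.GZ.a_UNZ c_EZA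
theorem c_UBD : Pool.Agent.H34.GA.T_UBD := Pool.Agent.H20.GA.pf_UBD Pool.Agent.H34.GZ.g_MSR Pool.Agent.H34.GZ.a_JSH
theorem c_PA1 : Pool.Agent.H34.GA.T_PA1 := Pool.Agent.H63.GA.pf_PA1 c_EIA c_UBD Pool.Agent.H34.GZ.g_MSR Pool.Agent.H34.GZ.a_VLM
theorem c_THG : Pool.Agent.H34.GA.T_THG := Pool.Agent.H27.GA.pf_THG Pool.Agent.H34.GZ.a_CNT
theorem c_FTA : Pool.Agent.H34.GA.T_FTA := Pool.Agent.H19.GA.pf_FTA Pool.Agent.H34.GZ.a_VLM Pool.Agent.H34.GZ.a_DYM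
theorem c_ACA : Pool.Agent.H34.GA.T_ACA := Pool.Agent.H11.GA.pf_ACA c_THG c_FTA Pool.Agent.H34.GZ.a_TNL Pool.Agent.H34.GZ.a_RED Pool.Agent.H34.GZ.a_GSU
theorem c_POA : Pool.Agent.H34.GA.T_POA := Pool.Agent.H19.GA.pf_POA Pool.Agent.H34.GZ.a_ALZ Pool.Agent.H34.GZ.a_PSZ
theorem c_POV : Pool.Agent.H34.GA.T_POV := Pool.Agent.H51.GA.pf_POV c_POA Pool.Agent.H34.GU.b_PSU Pool.Agent.H34.GZ.a_PSZ Pool.Agent.H34.GZ.a_ALZ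
theorem c_ADR : Pool.Agent.H34.GA.T_ADR := Pool.Agent.H55.GA.pf_ADR c_POV c_POA
theorem c_ADB : Pool.Agent.H34.GA.T_ADB := Pool.Agent.H80.GA.pf_ADB c_THG c_FTA Pool.Agent.H34.GZ.a_TNL Pool.Agent.H34.GZ.a_GSU Pool.Agent.H34.GZ.g_MSR Pool.Agent.H34.GZ.a_ALZ Pool.Agent.H34.GZ.a_VLM
theorem c_CUA : Pool.Agent.H34.GA.T_CUA := Pool.Agent.H86.GA.pf_CUA
theorem c_LMA : Pool.Agent.H34.GA.T_LMA := Pool.Agent.H35.GA.pf_LMA Pool.Agent.H34.GZ.a_TNZ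
theorem c_EGB : Pool.Agent.H34.GA.T_EGB := Pool.Agent.H94.GA.pf_EGB c_EIA c_CUA Pool.Agent.H34.GZ.a_TNL Pool.Agent.H34.GZ.a_JSH c_LMA Pool.Agent.H34.GZ.a_ALZ Pool.Agent.H34.GZ.g_MSR
theorem c_SGA : Pool.Agent.H34.GA.T_SGA := Pool.Agent.H23.GA.pf_SGA c_ACA
theorem c_EGA : Pool.Agent.H34.GA.T_EGA := Pool.Agent.H54.GA.pf_EGA c_EGB c_SGA c_ACA
theorem c_FTB : Pool.Agent.H34.GA.T_FTB := Pool.Agent.H84.GA.pf_FTB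
theorem c_PA2 : Pool.Agent.H34.GA.T_PA2 := Pool.Agent.H31.GA.pf_PA2 c_EIA c_ACA c_ADR c_ADB c_EGA c_FTB c_LMA c_UBD Pool.Agent.H34.GZ.g_MSR Pool.Agent.H34.GZ.a_VLM Pool.Agent.H34.GU.b_PSU
theorem c_FEA : Pool.Agent.H34.GA.T_FEA := Pool.Agent.H69.GA.pf_FEA c_PA1 c_PA2
theorem c_SMA : Pool.Agent.H34.GA.T_SMA := Pool.Agent.H69.GA.pf_SMA Pool.Agent.H34.GU.b_FR1 c_CFA c_CFB c_MLZ c_FEA c_UBD c_FTB c_LMA
theorem c_GLA : Pool.Agent.H34.GA.T_GLA := Pool.Agent.H17.GA.GLA.pf_GLA Pool.Agent.H34.GZ.g_CON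
theorem c_ENA : Pool.Agent.H34.GA.T_ENA := Pool.Agent.H69.GA.pf_ENA Pool.Agent.H34.GM.pf_PRF c_BIA c_NZR c_RRC c_DCA c_NZU c_CCO c_CFA c_ZLO c_MLZ c_SMA c_LMA c_GLA
theorem c_ABA : Pool.Agent.H34.GA.T_ABA := Pool.Agent.H17.GA.pf_ABA
theorem c_ABW : Pool.Agent.H34.GA.T_ABW := Pool.Agent.H69.GA.pf_ABW c_ABA
theorem c_BID : Pool.Agent.H34.GA.T_BID := Pool.Agent.H84.GA.pf_BID
theorem c_FTY : Pool.Agent.H34.GA.T_FTY := Pool.Agent.H84.GA.pf_FTY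
theorem c_FDD : Pool.Agent.H34.GA.T_FDD := Pool.Agent.H84.GA.pf_FDD
theorem c_ZAD : Pool.Agent.H34.GA.T_ZAD := Pool.Agent.H84.GA.pf_ZAD
theorem c_TEU : Pool.Agent.H34.GA.T_TEU := Pool.Agent.H84.GA.pf_TEU
theorem c_UDE : Pool.Agent.H34.GA.T_UDE := Pool.Agent.H84.GA.pf_UDE Pool.Agent.H34.GZ.g_MSR Pool.Agent.H34.GZ.a_JSH
theorem c_PHB : Pool.Agent.H34.GA.T_PHB := Pool.Agent.H23.GA.pf_PHB c_BIA c_BID c_FTY c_FDD c_ZAD c_TEU c_UBD c_UDE c_ZLO c_FTB Pool.Agent.H34.GZ.a_JSH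
theorem c_CNR : Pool.Agent.H34.GA.T_CNR := Pool.Agent.H90.GA.pf_CNR Pool.Agent.H34.GZ.a_VLM
theorem c_THK : Pool.Agent.H34.GA.T_THK := Pool.Agent.H69.GA.pf_THK
theorem c_SPB : Pool.Agent.H34.GA.T_SPB := Pool.Agent.H69.GA.pf_SPB
theorem c_SPC : Pool.Agent.H34.GA.T_SPC := Pool.Agent.H16.GA.pf_SPC Pool.Agent.H34.GM.pf_PRF Pool.Agent.H34.GU.b_FR1 c_ABW Pool.Agent.H34.GU.b_DYU c_PHB c_CNR c_CFA c_CFB c_MLZ c_FEA c_SMA c_LMA c_THK c_SPB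
theorem c_CKI : Pool.Agent.H34.GA.T_CKI := Pool.Agent.H79.GA.pf_CKI
theorem c_MKI : Pool.Agent.H34.GA.T_MKI := Pool.Agent.H60.GA.pf_MKI Pool.Agent.H34.GZ.g_MSR
theorem c_OCA : Pool.Agent.H34.GA.T_OCA := Pool.Agent.H55.GA.pf_OCA Pool.Agent.H34.GZ.g_MSR Pool.Agent.H34.GZ.g_HAR Pool.Agent.H34.GZ.a_UNZ c_EZA Pool.Agent.H34.GU.b_ALU Pool.Agent.H34.GZ.a_ALZ
theorem c_HSA : Pool.Agent.H34.GA.T_HSA := Pool.Agent.H5.GA.pf_HSA c_BIA Pool.Agent.H34.GZ.a_BE2 c_CKI c_MKI Pool.Agent.H34.GU.b_MKU Pool.Agent.H34.GU.b_FCU c_OCA c_RRA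
theorem c_APR : Pool.Agent.H34.GA.T_APR := Pool.Agent.H74.GA.pf_APR c_BIA c_TBA Pool.Agent.H34.GZ.g_MSR Pool.Agent.H34.GZ.g_HAR Pool.Agent.H34.GZ.a_VLM
theorem c_RRN : Pool.Agent.H34.GA.T_RRN := Pool.Agent.H91.GA.pf_RRN Pool.Agent.H34.GZ.a_RTI Pool.Agent.H34.GU.b_ALU Pool.Agent.H34.GZ.g_MSR
theorem c_MSA : Pool.Agent.H34.GA.T_MSA := Pool.Agent.H52.GA.pf_MSA c_APR c_OSA c_RRA c_RRN c_TBA c_BIA Pool.Agent.H34.GZ.a_RTI Pool.Agent.H34.GZ.a_DYM Pool.Agent.H34.GZ.a_VLM Pool.Agent.H34.GU.b_ALU Pool.Agent.H34.GZ.g_MSR Pool.Agent.H34.GZ.g_HAR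
theorem c_D4A : Pool.Agent.H34.GA.T_D4A := Pool.Agent.H83.GA.pf_D4A c_HSA c_OCA c_RRA c_MSA Pool.Agent.H34.GZ.a_DYM c_BIA
theorem c_D4B : Pool.Agent.H34.GA.T_D4B := Pool.Agent.H32.GA.pf_D4B c_D4A Pool.Agent.H34.GU.b_ENU
theorem c_MOC : Pool.Agent.H34.GA.T_MOC := Pool.Agent.H16.GA.pf_MOC Pool.Agent.H34.GM.pf_PRF c_ENA c_SPC Pool.Agent.H34.GU.b_HLU c_D4B

end Pool.Agent.H34.GA
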