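import Pool.Agent.H34.GA.All

/-!
The final fact of the board ga (page H34_GA.md).
-/

namespace Pool.Agent.H34.GA

theorem f_MOC : T_MOC := c_MOC

end Pool.Agent.H34.GA
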